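import Pool.Agent.Lib_helper39.T2X.EXL2

/-! copy of part of the block EXP (helper44) of MonicQuadraticsLog -/

/-!
# EXP, file 3: the derivative test
-/

namespace Pool.Agent.T2.EXL

section

open Complex

theorem dl_mvt (hs : List ℕ) : ∀ (F : ℕ → ℝ → ℝ) (φ : ℤ → ℝ) (x0 x1 : ℝ),
    (∀ i < hs.length, ∀ x ∈ Set.Icc x0 x1, HasDerivAt (F i) (F (i + 1) x) x) →
    (∀ n : ℤ, x0 ≤ n → (n : ℝ) ≤ x1 → φ n = F 0 n) →
    (∀ h ∈ hs, 1 ≤ h) → ∀ n : ℤ, x0 ≤ n → (n : ℝ) + (hs.sum : ℕ) ≤ x1 →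
    ∃ ξ ∈ Set.Icc x0 x1, dl hs φ n = (hs.prod : ℕ) * F hs.length ξ := by
  induction hs with
  | nil =>
    intro F φ x0 x1 _ hφ _ n hn hn1
    simp only [List.sum_nil, Nat.cast_zero, add_zero] at hn1
    exact ⟨n, ⟨hn, hn1⟩, by simp [dl, hφ n hn hn1]⟩
  | cons h ks ih =>
    intro F φ x0 x1 hF hφ hpos n hn hn1
    have hh : 1 ≤ h := hpos h (by simp)
    have hh0 : (0 : ℝ) < h := by exact_mod_cast hh
    simp only [List.sum_cons, Nat.cast_add] at hn1
    obtain ⟨ξ, hξ, he⟩ := ih (fun i x => F i (x + h) - F i x) (dd h φ) x0 (x1 - h) (by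
      intro i hi x hx
      have h1 := hF i (by simp only [List.length_cons]; omega) x ⟨hx.1, by linarith [hx.2]⟩
      have h2 := hF i (by simp only [List.length_cons]; omega) (x + h)
        ⟨by linarith [hx.1], by linarith [hx.2]⟩
      exact (h2.comp_add_const x (h : ℝ)).sub h1) (by
      intro m hm hm1
      simp only [dd]
      rw [hφ m hm (by linarith), hφ (m + h) (by push_cast; linarith) (by push_cast; linarith)]
      push_cast
      rfl) (fun k hk => hpos k (by simp [hk])) n hn (by linarith)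
    simp only [dl, List.prod_cons, List.length_cons]
    rw [he]
    obtain ⟨η, hη, he2⟩ := exists_hasDerivAt_eq_slope (F ks.length) (F (ks.length + 1))
      (a := ξ) (b := ξ + h) (by linarith) (by
        intro x hx
        exact (hF ks.length (by simp) x ⟨by linarith [hξ.1, hx.1],
          by linarith [hξ.2, hx.2]⟩).continuousAt.continuousWithinAt) (by
        intro x hx
        exact hF ks.length (by simp) x ⟨by linarith [hξ.1, hx.1], by linarith [hξ.2, hx.2]⟩)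
    refine ⟨η, ⟨by linarith [hξ.1, hη.1], by linarith [hξ.2, hη.2]⟩, ?_⟩
    have e5 : (h : ℝ) * F (ks.length + 1) η = F ks.length (ξ + h) - F ks.length ξ := by
      rw [he2, show ξ + (h : ℝ) - ξ = h by ring]
      field_simp
    rw [← e5, Nat.cast_mul]
    ring

theorem abs_test (r : ℕ) (F : ℕ → ℝ → ℝ) (x0 x1 : ℝ) (a b : ℤ) (ha : x0 ≤ a)
    (hb : (b : ℝ) - 1 ≤ x1)
    (hF : ∀ i < r + 2, ∀ x ∈ Set.Icc x0 x1, HasDerivAt (F i) (F (i + 1) x) x)
    (l0 l1 l2 : ℝ) (hl0 : 0 < l0) (hl2 : 0 ≤ l2) (h1 : ∀ x ∈ Set.Icc x0 x1, l0 ≤ |F (r + 1) x|)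
    (h2 : ∀ x ∈ Set.Icc x0 x1, |F (r + 1) x| ≤ l1)
    (h3 : ∀ x ∈ Set.Icc x0 x1, |F (r + 2) x| ≤ l2) (H : ℕ) (hH : 1 ≤ H)
    (hHr : (H : ℝ) ^ r * l1 ≤ 1 / 2) (L ℓ : ℝ) (hL : ((b - a : ℤ) : ℝ) ≤ L) (hHL : (H : ℝ) ≤ L)
    (hℓ : 0 ≤ ℓ) (hs : ∑ h ∈ Finset.Ico 1 H, (1 / (h : ℝ)) ≤ ℓ) :
    ‖S (fun n => F 0 n) a b‖ ^ (2 ^ r) ≤
      Cw r * L ^ (2 ^ r) * (1 / H + (1 / l0 + L * l2 / l0 ^ 2) / L * (ℓ / H) ^ r) := by
  have hH0 : (0 : ℝ) < H := by exact_mod_cast hH
  have hL0 : 0 < L := lt_of_lt_of_le hH0 hHL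
  refine weyl r (fun n => F 0 n) a b H hH L ℓ _ hL hHL hℓ hs (by positivity) ?_
  intro ks hks hks2
  set φ : ℤ → ℝ := fun n => F 0 n with hφ
  have hprod : (ks.prod : ℝ) ≤ (H : ℝ) ^ r := by
    have : ks.prod ≤ H ^ ks.length := List.prod_le_pow_card ks H fun x hx => (hks2 x hx).2.le
    rw [hks] at this
    exact_mod_cast this
  have hprod1 : 1 ≤ ks.prod := List.one_le_prod_of_one_le fun x hx => (hks2 x hx).1
  have hp0 : (0 : ℝ) < (ks.prod : ℕ) := by exact_mod_cast hprod1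
  obtain ⟨s, hs'⟩ : ∃ s : ℕ, ks.sum = s := ⟨_, rfl⟩
  rw [hs']
  rcases le_or_gt (b - (s : ℤ)) a with hba | hba
  · have : S (dl ks φ) a (b - (s : ℤ)) = 0 := by
      unfold S
      rw [Finset.Ico_eq_empty (by omega), Finset.sum_empty]
    rw [this, norm_zero]
    positivity
  obtain ⟨N, hN⟩ : ∃ N : ℕ, b - (s : ℤ) = a + (N + 1 : ℕ) :=
    ⟨(b - (s : ℤ) - a - 1).toNat, by push_cast; omega⟩
  have hNr : (b : ℝ) - s = a + (N + 1) := by
    have : ((b - (s : ℤ) : ℤ) : ℝ) = ((a + (N + 1 : ℕ) : ℤ) : ℝ) := by rw [hN]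
    push_cast at this
    exact this
  have hSr : S (dl ks φ) a (b - (s : ℤ)) =
      ∑ j ∈ Finset.range (N + 1), ee (dl ks φ (a + j)) := by
    unfold S
    rw [hN]
    rw [show Finset.Ico a (a + (N + 1 : ℕ)) =
      (Finset.range (N + 1)).image (fun j : ℕ => a + (j : ℤ)) by
        ext x
        simp only [Finset.mem_Ico, Finset.mem_image, Finset.mem_range]
        constructor
        · rintro ⟨h4, h5⟩
          exact ⟨(x - a).toNat, by push_cast at h5; omega, by omega⟩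
        · rintro ⟨j, hj, rfl⟩
          push_cast
          omega]
    rw [Finset.sum_image]
    intro x _ y _ hxy
    simpa using hxy
  have hs0 : (0 : ℝ) ≤ s := Nat.cast_nonneg _
  have hN0 : (0 : ℝ) ≤ N := Nat.cast_nonneg _
  have hx1 : (a : ℝ) + N + s ≤ x1 := by linarith
  -- a point is in the interval
  have hne : x0 ≤ x1 := by linarith
  have hl1 : l0 ≤ l1 := (h1 x0 ⟨le_rfl, hne⟩).trans (h2 x0 ⟨le_rfl, hne⟩)
  set δ : ℝ := (ks.prod : ℕ) * l0 with hδ
  have hδ0 : 0 < δ := by positivity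
  have hpl : ((ks.prod : ℕ) : ℝ) * l1 ≤ 1 / 2 := by
    have : 0 ≤ l1 := hl0.le.trans hl1
    exact (mul_le_mul_of_nonneg_right hprod this).trans hHr
  have hδ2 : δ ≤ 1 / 2 := (mul_le_mul_of_nonneg_left hl1 hp0.le).trans hpl
  have hd1 : ∀ j : ℕ, j < N → ∃ ξ ∈ Set.Icc x0 x1,
      dl ks φ (a + (j + 1 : ℕ)) - dl ks φ (a + j) = (ks.prod : ℕ) * F (r + 1) ξ := by
    intro j hj
    have hj' : (j : ℝ) + 1 ≤ N := by exact_mod_cast hj
    have hj0 : (0 : ℝ) ≤ j := Nat.cast_nonneg _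
    have es : (ks ++ [1]).sum = s + 1 := by simp [hs']
    obtain ⟨ξ, hξ, he⟩ := dl_mvt (ks ++ [1]) F φ x0 x1 (by
      intro i hi x hx
      rw [List.length_append, hks, List.length_singleton] at hi
      exact hF i (by omega) x hx) (fun n _ _ => rfl) (by
      intro h hh
      rcases List.mem_append.1 hh with hh | hh
      · exact (hks2 h hh).1
      · simp only [List.mem_singleton] at hh
        omega) (a + j) (by push_cast; linarith) (by
      rw [es]
      push_cast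
      linarith)
    refine ⟨ξ, hξ, ?_⟩
    rw [dl_append, List.length_append, hks, List.prod_append] at he
    simp only [dd, List.length_singleton, List.prod_singleton, mul_one] at he
    rw [← he]
    congr 2
    push_cast
    ring
  have hd2 : ∀ j : ℕ, j + 1 < N → ∃ ξ ∈ Set.Icc x0 x1,
      dl ks φ (a + (j + 2 : ℕ)) - 2 * dl ks φ (a + (j + 1 : ℕ)) + dl ks φ (a + j) =
        (ks.prod : ℕ) * F (r + 2) ξ := by
    intro j hj
    have hj' : (j : ℝ) + 1 + 1 ≤ N := by exact_mod_cast hj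
    have hj0 : (0 : ℝ) ≤ j := Nat.cast_nonneg _
    have es : (ks ++ [1] ++ [1]).sum = s + 2 := by simp [hs']
    obtain ⟨ξ, hξ, he⟩ := dl_mvt (ks ++ [1] ++ [1]) F φ x0 x1 (by
      intro i hi x hx
      simp only [List.length_append, hks, List.length_singleton] at hi
      exact hF i (by omega) x hx) (fun n _ _ => rfl) (by
      intro h hh
      simp only [List.mem_append, List.mem_singleton] at hh
      rcases hh with (hh | hh) | hh
      · exact (hks2 h hh).1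
      · omega
      · omega) (a + j) (by push_cast; linarith) (by
      rw [es]
      push_cast
      linarith)
    refine ⟨ξ, hξ, ?_⟩
    rw [dl_append, dl_append] at he
    simp only [dd, List.length_append, hks, List.length_singleton, List.prod_append,
      List.prod_singleton, mul_one] at he
    rw [← he]
    push_cast
    rw [show a + (j : ℤ) + 1 + 1 = a + (j + 2) by ring, show a + (j : ℤ) + 1 = a + (j + 1) by ring]
    ring
  rw [hSr]
  have hkl := kl_var (F := fun j => dl ks φ (a + j)) (N := N) hδ0 hδ2 (by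
    intro j hj l
    obtain ⟨ξ, hξ, he⟩ := hd1 j hj
    have e1 : δ ≤ |((ks.prod : ℕ) : ℝ) * F (r + 1) ξ| := by
      rw [abs_mul, abs_of_pos hp0]
      exact mul_le_mul_of_nonneg_left (h1 ξ hξ) hp0.le
    have e2 : |((ks.prod : ℕ) : ℝ) * F (r + 1) ξ| ≤ 1 / 2 := by
      rw [abs_mul, abs_of_pos hp0]
      exact (mul_le_mul_of_nonneg_left (h2 ξ hξ) hp0.le).trans hpl
    have e0 : dl ks φ (a + ((j + 1 : ℕ) : ℤ)) - dl ks φ (a + (j : ℤ)) - (l : ℝ) =
        ((ks.prod : ℕ) : ℝ) * F (r + 1) ξ - l := by rw [he]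
    refine le_trans ?_ (le_of_eq (congrArg abs e0.symm))
    rcases eq_or_ne l 0 with rfl | hl
    · simpa using e1
    · have e3 : (1 : ℝ) ≤ |(l : ℝ)| := by
        rw [← Int.cast_abs]
        exact_mod_cast Int.one_le_abs hl
      have e4 : |(l : ℝ)| - |((ks.prod : ℕ) : ℝ) * F (r + 1) ξ| ≤
          |((ks.prod : ℕ) : ℝ) * F (r + 1) ξ - l| := by
        rw [abs_sub_comm]
        exact abs_sub_abs_le_abs_sub _ _
      linarith)
  refine hkl.trans ?_
  have hsum2 : ∑ j ∈ Finset.range (N - 1), |dl ks φ (a + (j + 2 : ℕ)) -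
      2 * dl ks φ (a + (j + 1 : ℕ)) + dl ks φ (a + j)| ≤ L * ((ks.prod : ℕ) * l2) := by
    have e1 : ∀ j ∈ Finset.range (N - 1), |dl ks φ (a + (j + 2 : ℕ)) -
      2 * dl ks φ (a + (j + 1 : ℕ)) + dl ks φ (a + j)| ≤ (ks.prod : ℕ) * l2 := by
      intro j hj
      rw [Finset.mem_range] at hj
      obtain ⟨ξ, hξ, he⟩ := hd2 j (by omega)
      rw [he, abs_mul, abs_of_pos hp0]
      exact mul_le_mul_of_nonneg_left (h3 ξ hξ) hp0.le
    refine (Finset.sum_le_sum e1).trans ?_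
    rw [Finset.sum_const, Finset.card_range, nsmul_eq_mul]
    refine mul_le_mul_of_nonneg_right ?_ (by positivity)
    have e2 : ((N - 1 : ℕ) : ℝ) ≤ N + 1 := by
      have : ((N - 1 : ℕ) : ℝ) ≤ N := by exact_mod_cast Nat.sub_le _ _
      linarith
    push_cast at hL
    linarith
  calc 1 / δ + 1 / δ ^ 2 * ∑ j ∈ Finset.range (N - 1), |dl ks φ (a + (j + 2 : ℕ)) -
      2 * dl ks φ (a + (j + 1 : ℕ)) + dl ks φ (a + j)|
      ≤ 1 / δ + 1 / δ ^ 2 * (L * ((ks.prod : ℕ) * l2)) := by gcongr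
    _ = (1 / l0 + L * l2 / l0 ^ 2) / (ks.prod : ℕ) := by
        rw [hδ]
        field_simp

end

end Pool.Agent.T2.EXL
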