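import Pool.Agent.Lib_helper39.T2X.EXL1

/-! copy of part of the block EXP (helper44) of MonicQuadraticsLog -/

namespace Pool.Agent.T2.EXL

section

open Polynomial

/-- the polynomials `U_i` -/
noncomputable def Up (β γ : ℝ) : ℕ → ℝ[X]
  | 0 => 0
  | 1 => 1
  | (i + 2) => (C 2 * X + C β) * Up β γ (i + 1) - (X ^ 2 + C β * X + C γ) * Up β γ i

theorem Up_der (β γ : ℝ) (i : ℕ) :
    derivative (Up β γ (i + 1)) = C ((i : ℝ) + 1) * Up β γ i ∧
      derivative (Up β γ (i + 2)) = C ((i : ℝ) + 2) * Up β γ (i + 1) := by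
  induction i with
  | zero =>
    constructor
    · simp [Up]
    · simp [Up]
  | succ i ih =>
    obtain ⟨h1, h2⟩ := ih
    refine ⟨?_, ?_⟩
    · rw [show i + 1 + 1 = i + 2 from rfl, h2]
      congr 2
      push_cast
      ring
    · have e1 : Up β γ (i + 1 + 2) =
        (C 2 * X + C β) * Up β γ (i + 2) - (X ^ 2 + C β * X + C γ) * Up β γ (i + 1) := rfl
      have e2 : Up β γ (i + 2) =
        (C 2 * X + C β) * Up β γ (i + 1) - (X ^ 2 + C β * X + C γ) * Up β γ i := rfl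
      rw [e1, derivative_sub, derivative_mul, derivative_mul, h1, h2]
      simp only [derivative_add, derivative_mul, derivative_C, derivative_X, derivative_X_pow,
        zero_mul, zero_add, add_zero, mul_one]
      rw [show i + 1 + 1 = i + 2 from rfl]
      have e3 : (C (((i + 1 : ℕ) : ℝ) + 2) : ℝ[X]) = C ((i : ℝ) + 1) + C 2 := by
        rw [← C_add]; congr 1; push_cast; ring
      have e4 : (C ((i : ℝ) + 2) : ℝ[X]) = C ((i : ℝ) + 1) + 1 := by
        rw [← C_1, ← C_add]; congr 1; ring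
      rw [e3, e4]
      have e5 : (C ((2 : ℕ) : ℝ) : ℝ[X]) = C 2 := by norm_num
      rw [e5]
      have e6 : (C (2 : ℝ) : ℝ[X]) = 2 := by
        rw [← map_ofNat (C : ℝ →+* ℝ[X]) 2]
      have e7 : (X : ℝ[X]) ^ (2 - 1) = X := by norm_num
      rw [e7]
      linear_combination (-(C ((i : ℝ) + 1)) : ℝ[X]) * e2 + (0 : ℝ[X]) * e6

theorem Up_coeff (β γ : ℝ) (i : ℕ) :
    ((Up β γ (i + 1)).natDegree ≤ i ∧ (Up β γ (i + 1)).coeff i = (i : ℝ) + 1) ∧
      (Up β γ (i + 2)).natDegree ≤ i + 1 ∧ (Up β γ (i + 2)).coeff (i + 1) = (i : ℝ) + 2 := by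
  have hd1 : (C (2 : ℝ) * X + C β : ℝ[X]).natDegree ≤ 1 := natDegree_linear_le
  have hc1 : (C (2 : ℝ) * X + C β : ℝ[X]).coeff 1 = 2 := by
    simp
  have hd2 : (X ^ 2 + C β * X + C γ : ℝ[X]).natDegree ≤ 2 := by
    compute_degree
  have hc2 : (X ^ 2 + C β * X + C γ : ℝ[X]).coeff 2 = 1 := by
    simp [coeff_X, coeff_C]
  induction i with
  | zero =>
    refine ⟨⟨by simp [Up], by simp [Up]⟩, ?_, ?_⟩
    · simp only [Up, mul_one, mul_zero, sub_zero]
      exact hd1
    · simp only [Up, mul_one, mul_zero, sub_zero]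
      rw [zero_add, hc1]
      simp
  | succ i ih =>
    obtain ⟨⟨h1, h2⟩, h3, h4⟩ := ih
    refine ⟨⟨h3, ?_⟩, ?_, ?_⟩
    · rw [show i + 1 + 1 = i + 2 from rfl, h4]
      push_cast; ring
    · have e1 : Up β γ (i + 1 + 2) =
        (C 2 * X + C β) * Up β γ (i + 2) - (X ^ 2 + C β * X + C γ) * Up β γ (i + 1) := rfl
      rw [e1]
      refine (natDegree_sub_le _ _).trans (max_le ?_ ?_)
      · exact (natDegree_mul_le).trans (by omega)
      · exact (natDegree_mul_le).trans (by omega)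
    · have e1 : Up β γ (i + 1 + 2) =
        (C 2 * X + C β) * Up β γ (i + 2) - (X ^ 2 + C β * X + C γ) * Up β γ (i + 1) := rfl
      rw [e1, coeff_sub]
      have e2 := coeff_mul_add_eq_of_natDegree_le hd1 h3
      have e3 := coeff_mul_add_eq_of_natDegree_le hd2 h1
      rw [Nat.add_comm 1 (i + 1)] at e2
      rw [Nat.add_comm 2 i] at e3
      rw [e2, show i + 1 + 1 = i + 2 from rfl, e3, h2, h4, hc1, hc2]
      push_cast
      ring

/-- a polynomial is large away from finitely many real points -/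
theorem root_excl (p : ℝ[X]) (d : ℕ) (hd : p.natDegree ≤ d) (hc : p.coeff d ≠ 0) :
    ∃ Z : List ℝ, Z.length = d ∧ ∀ ρ : ℝ, 0 ≤ ρ → ∀ x : ℝ, (∀ z ∈ Z, ρ ≤ |x - z|) →
      |p.coeff d| * ρ ^ d ≤ |p.eval x| := by
  have hnd : p.natDegree = d := le_antisymm hd (le_natDegree_of_ne_zero hc)
  set q : ℂ[X] := p.map (algebraMap ℝ ℂ) with hq
  have hqd : q.natDegree = d := by
    rw [hq, natDegree_map, hnd]
  have hqs : q.Splits := IsAlgClosed.splits q
  have hcard : Multiset.card q.roots = d := by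
    rw [← hqd]
    exact (splits_iff_card_roots.1 hqs)
  refine ⟨(q.roots.map Complex.re).toList, by simp [hcard], ?_⟩
  intro ρ hρ x hx
  have h1 : q = C q.leadingCoeff * (q.roots.map (fun a => X - C a)).prod :=
    (hqs.eq_prod_roots)
  have h2 : ((p.eval x : ℝ) : ℂ) = q.eval (x : ℂ) := by
    rw [hq, eval_map]
    exact (eval₂_at_apply (algebraMap ℝ ℂ) x).symm
  have h3 : q.leadingCoeff = ((p.coeff d : ℝ) : ℂ) := by
    rw [hq, leadingCoeff_map, leadingCoeff, hnd]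
    rfl
  have h4 : |p.eval x| = ‖q.eval (x : ℂ)‖ := by
    rw [← h2, Complex.norm_real, Real.norm_eq_abs]
  rw [h4, h1, eval_mul, eval_C, norm_mul, h3, Complex.norm_real, Real.norm_eq_abs]
  refine mul_le_mul_of_nonneg_left ?_ (abs_nonneg _)
  have hx' : ∀ z ∈ q.roots, ρ ≤ ‖(x : ℂ) - z‖ := by
    intro z hz
    have := hx z.re (by
      rw [Multiset.mem_toList]
      exact Multiset.mem_map_of_mem _ hz)
    refine this.trans ?_
    have h5 := Complex.abs_re_le_norm ((x : ℂ) - z)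
    rwa [Complex.sub_re, Complex.ofReal_re] at h5
  rw [← hcard]
  clear h1 h2 h3 h4 hx hcard
  generalize q.roots = R at hx'
  induction R using Multiset.induction_on with
  | empty => simp
  | cons a R ih =>
    rw [Multiset.map_cons, Multiset.prod_cons, Multiset.card_cons, pow_succ', eval_mul, norm_mul]
    have h6 := hx' a (Multiset.mem_cons_self _ _)
    have h7 := ih (fun z hz => hx' z (Multiset.mem_cons_of_mem hz))
    rw [eval_sub, eval_X, eval_C]
    exact mul_le_mul h6 h7 (by positivity) (norm_nonneg _)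

/-- exceptional intervals -/
theorem split_sum (z : ℤ → ℂ) (hz : ∀ n, ‖z n‖ ≤ 1) (ρ B : ℝ) (hρ : 0 ≤ ρ) (hB : 0 ≤ B)
    (Z : List ℝ) : ∀ a b : ℤ, (∀ a' b' : ℤ, a ≤ a' → b' ≤ b →
      (∀ x : ℝ, (a' : ℝ) ≤ x → x ≤ (b' : ℝ) - 1 → ∀ ζ ∈ Z, ρ ≤ |x - ζ|) →
      ‖∑ n ∈ Finset.Ico a' b', z n‖ ≤ B) →
    ‖∑ n ∈ Finset.Ico a b, z n‖ ≤ 2 ^ Z.length * (B + 2 * ρ + 1) - (2 * ρ + 1) := by
  induction Z with
  | nil =>
    intro a b h
    have := h a b le_rfl le_rfl (by simp)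
    simp only [List.length_nil, pow_zero, one_mul]
    linarith
  | cons ζ Z ih =>
    intro a b h
    have hpos : 0 ≤ 2 ^ (ζ :: Z).length * (B + 2 * ρ + 1) - (2 * ρ + 1) := by
      have : (1 : ℝ) ≤ 2 ^ (ζ :: Z).length := one_le_pow₀ (by norm_num)
      nlinarith
    rcases le_or_gt b a with hab | hab
    · rw [Finset.Ico_eq_empty (by omega), Finset.sum_empty, norm_zero]
      exact hpos
    set p1 : ℤ := ⌊ζ - ρ⌋ + 1 with hp1
    set p2 : ℤ := ⌈ζ + ρ⌉ with hp2
    have hp12 : p1 ≤ p2 + 1 := by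
      have h1 : (⌊ζ - ρ⌋ : ℝ) ≤ ζ - ρ := Int.floor_le _
      have h2 : ζ + ρ ≤ (⌈ζ + ρ⌉ : ℝ) := Int.le_ceil _
      have h3 : (⌊ζ - ρ⌋ : ℝ) ≤ (⌈ζ + ρ⌉ : ℝ) := by linarith
      have h4 : ⌊ζ - ρ⌋ ≤ ⌈ζ + ρ⌉ := by exact_mod_cast h3
      omega
    set m1 : ℤ := max a (min b p1) with hm1
    set m2 : ℤ := max m1 (min b p2) with hm2
    have ham1 : a ≤ m1 := le_max_left _ _
    have hm12 : m1 ≤ m2 := le_max_left _ _
    have hm1b : m1 ≤ b := by omega
    have hm2b : m2 ≤ b := by omega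
    have hL := ih a m1 (by
      intro a' b' ha' hb' hx
      refine h a' b' ha' (hb'.trans hm1b) ?_
      intro x hx1 hx2 w hw
      rcases List.mem_cons.1 hw with rfl | hw
      · rcases le_or_gt p1 a with hpa | hpa
        · exfalso
          have : m1 = a := by omega
          have h5 : (a' : ℝ) ≤ (b' : ℝ) - 1 := hx1.trans hx2
          have h6 : a' ≤ b' - 1 := by exact_mod_cast h5
          omega
        · have h5 : m1 ≤ p1 := by omega
          have h6 : (b' : ℝ) ≤ (p1 : ℝ) := by exact_mod_cast hb'.trans h5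
          have h7 : (⌊w - ρ⌋ : ℝ) ≤ w - ρ := Int.floor_le _
          have h8 : (p1 : ℝ) = (⌊w - ρ⌋ : ℝ) + 1 := by rw [hp1]; push_cast; ring
          rw [abs_sub_comm]
          refine le_trans ?_ (le_abs_self _)
          linarith
      · exact hx x hx1 hx2 w hw)
    have hR := ih m2 b (by
      intro a' b' ha' hb' hx
      refine h a' b' (by omega) hb' ?_
      intro x hx1 hx2 w hw
      rcases List.mem_cons.1 hw with rfl | hw
      · rcases le_or_gt b p2 with hpa | hpa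
        · exfalso
          have : m2 = b := by omega
          have h5 : (a' : ℝ) ≤ (b' : ℝ) - 1 := hx1.trans hx2
          have h6 : a' ≤ b' - 1 := by exact_mod_cast h5
          omega
        · have h5 : p2 ≤ m2 := by omega
          have h6 : (p2 : ℝ) ≤ (a' : ℝ) := by exact_mod_cast h5.trans ha'
          have h7 : w + ρ ≤ (⌈w + ρ⌉ : ℝ) := Int.le_ceil _
          refine le_trans ?_ (le_abs_self _)
          rw [← hp2] at h7
          linarith
      · exact hx x hx1 hx2 w hw)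
    have hM : ‖∑ n ∈ Finset.Ico m1 m2, z n‖ ≤ 2 * ρ + 1 := by
      have h5 : ‖∑ n ∈ Finset.Ico m1 m2, z n‖ ≤ ((m2 - m1).toNat : ℝ) := by
        refine (norm_sum_le _ _).trans ?_
        refine (Finset.sum_le_sum (fun n _ => hz n)).trans ?_
        simp
      refine h5.trans ?_
      have h6 : (m2 - m1).toNat ≤ (p2 - p1).toNat := by omega
      have h7 : ((m2 - m1).toNat : ℝ) ≤ ((p2 - p1).toNat : ℝ) := by exact_mod_cast h6
      refine h7.trans ?_
      rcases le_or_gt p1 p2 with h8 | h8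
      · have h9 : (((p2 - p1).toNat : ℕ) : ℝ) = ((p2 - p1 : ℤ) : ℝ) := by
          have : (((p2 - p1).toNat : ℤ)) = p2 - p1 := by omega
          rw [← this]
          push_cast
          rfl
        rw [h9]
        have h10 : (p2 : ℝ) < ζ + ρ + 1 := Int.ceil_lt_add_one _
        have h11 : ζ - ρ < (⌊ζ - ρ⌋ : ℝ) + 1 := Int.lt_floor_add_one _
        have h12 : (p1 : ℝ) = (⌊ζ - ρ⌋ : ℝ) + 1 := by rw [hp1]; push_cast; ring
        push_cast
        linarith
      · have : (p2 - p1).toNat = 0 := by omega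
        rw [this]
        push_cast
        linarith
    have hsum : ∑ n ∈ Finset.Ico a b, z n = ∑ n ∈ Finset.Ico a m1, z n +
        ∑ n ∈ Finset.Ico m1 m2, z n + ∑ n ∈ Finset.Ico m2 b, z n := by
      rw [← Finset.sum_union (Finset.Ico_disjoint_Ico_consecutive _ _ _),
        Finset.Ico_union_Ico_eq_Ico ham1 hm12,
        ← Finset.sum_union (Finset.Ico_disjoint_Ico_consecutive _ _ _),
        Finset.Ico_union_Ico_eq_Ico (ham1.trans hm12) hm2b]
    rw [hsum]
    refine (norm_add₃_le).trans ?_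
    have : (2 : ℝ) ^ (ζ :: Z).length * (B + 2 * ρ + 1) = 2 * (2 ^ Z.length * (B + 2 * ρ + 1)) := by
      rw [List.length_cons, pow_succ]; ring
    rw [this]
    linarith


theorem Up_eval_rec (β γ : ℝ) (i : ℕ) (x : ℝ) : (Up β γ (i + 2)).eval x =
    (2 * x + β) * (Up β γ (i + 1)).eval x - (x ^ 2 + β * x + γ) * (Up β γ i).eval x := by
  simp [Up]

theorem Up_upper (b c : ℤ) {y : ℝ} (hy : 0 < y) (x : ℝ) (i : ℕ) :
    |(Up (b * y) (c * y ^ 2) (i + 1)).eval x| ≤
        ((3 + 2 * |(b : ℝ)| + |(c : ℝ)|) * (|x| + y)) ^ i ∧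
      |(Up (b * y) (c * y ^ 2) (i + 2)).eval x| ≤
        ((3 + 2 * |(b : ℝ)| + |(c : ℝ)|) * (|x| + y)) ^ (i + 1) := by
  set A : ℝ := 3 + 2 * |(b : ℝ)| + |(c : ℝ)| with hA
  set s : ℝ := |x| + y with hs
  have hb := abs_nonneg (b : ℝ)
  have hc := abs_nonneg (c : ℝ)
  have hx := abs_nonneg x
  have hs0 : 0 < s := by positivity
  have hA0 : 3 ≤ A := by rw [hA]; linarith
  have h1 : |2 * x + (b : ℝ) * y| ≤ (2 + |(b : ℝ)|) * s := by
    refine (abs_add_le _ _).trans ?_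
    rw [abs_mul, abs_mul, abs_of_pos hy, abs_two, hs]
    nlinarith
  have h2 : |x ^ 2 + (b : ℝ) * y * x + c * y ^ 2| ≤ (1 + |(b : ℝ)| + |(c : ℝ)|) * s ^ 2 := by
    have e1 : |x ^ 2 + (b : ℝ) * y * x + c * y ^ 2| ≤ |x| ^ 2 + |(b : ℝ)| * y * |x| +
        |(c : ℝ)| * y ^ 2 := by
      refine (abs_add_le _ _).trans ?_
      have := abs_add_le (x ^ 2) ((b : ℝ) * y * x)
      rw [abs_mul (b * y), abs_mul (b : ℝ) y, abs_pow, abs_of_pos hy] at this
      rw [abs_mul (c : ℝ), abs_pow, abs_of_pos hy]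
      linarith
    refine e1.trans ?_
    have e2 : |x| ^ 2 ≤ s ^ 2 := by rw [hs]; nlinarith
    have e3 : y * |x| ≤ s ^ 2 := by rw [hs]; nlinarith
    have e4 : y ^ 2 ≤ s ^ 2 := by rw [hs]; nlinarith
    have e5 : |(b : ℝ)| * (y * |x|) ≤ |(b : ℝ)| * s ^ 2 := mul_le_mul_of_nonneg_left e3 hb
    have e6 : |(c : ℝ)| * y ^ 2 ≤ |(c : ℝ)| * s ^ 2 := mul_le_mul_of_nonneg_left e4 hc
    nlinarith
  induction i with
  | zero =>
    refine ⟨by simp [Up], ?_⟩
    rw [Up_eval_rec]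
    simp only [Up, eval_one, eval_zero, mul_one, mul_zero, sub_zero, zero_add, pow_one]
    refine h1.trans ?_
    apply mul_le_mul_of_nonneg_right _ hs0.le
    rw [hA]; linarith
  | succ i ih =>
    refine ⟨ih.2, ?_⟩
    rw [Up_eval_rec]
    refine (abs_sub _ _).trans ?_
    rw [abs_mul, abs_mul]
    have e1 : |2 * x + (b : ℝ) * y| * |(Up (b * y) (c * y ^ 2) (i + 1 + 1)).eval x| ≤
        (2 + |(b : ℝ)|) * s * (A * s) ^ (i + 1) := mul_le_mul h1 ih.2 (abs_nonneg _) (by positivity)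
    have e2 : |x ^ 2 + (b : ℝ) * y * x + c * y ^ 2| *
        |(Up (b * y) (c * y ^ 2) (i + 1)).eval x| ≤
        (1 + |(b : ℝ)| + |(c : ℝ)|) * s ^ 2 * (A * s) ^ i :=
      mul_le_mul h2 ih.1 (abs_nonneg _) (by positivity)
    refine (add_le_add e1 e2).trans ?_
    have e3 : (1 + |(b : ℝ)| + |(c : ℝ)|) * s ^ 2 * (A * s) ^ i ≤
        (1 + |(b : ℝ)| + |(c : ℝ)|) * s * (A * s) ^ (i + 1) := by
      rw [pow_succ (A * s) i]
      have e4 : s ^ 2 ≤ s * (A * s) := by nlinarith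
      have e5 : 0 ≤ (1 + |(b : ℝ)| + |(c : ℝ)|) * (A * s) ^ i := by positivity
      calc (1 + |(b : ℝ)| + |(c : ℝ)|) * s ^ 2 * (A * s) ^ i
          = (1 + |(b : ℝ)| + |(c : ℝ)|) * (A * s) ^ i * s ^ 2 := by ring
        _ ≤ (1 + |(b : ℝ)| + |(c : ℝ)|) * (A * s) ^ i * (s * (A * s)) :=
            mul_le_mul_of_nonneg_left e4 e5
        _ = _ := by ring
    refine (add_le_add_right e3 _).trans (le_of_eq ?_)
    rw [pow_succ (A * s) (i + 1), hA]
    ring

theorem harm_bound (H : ℕ) :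
    ∑ h ∈ Finset.Ico 1 H, (1 / (h : ℝ)) ≤ 1 + Real.log H := by
  refine le_trans ?_ (harmonic_le_one_add_log H)
  rw [Finset.sum_Ico_eq_sum_range, harmonic]
  push_cast
  refine le_trans ?_ (Finset.sum_le_sum_of_subset_of_nonneg
    (Finset.range_subset_range.2 (Nat.sub_le H 1)) fun _ _ _ => by positivity)
  refine Finset.sum_le_sum fun i _ => ?_
  rw [one_div]
  apply le_of_eq
  congr 1
  ring

end

end Pool.Agent.T2.EXL
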