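import Mathlib

/-! copy of part of the block EXP (helper44) of MonicQuadraticsLog -/

namespace Pool.Agent.T2.EXL

section

open Complex

/-- `e(x) = exp(2πix)` -/
noncomputable def ee (x : ℝ) : ℂ := Complex.exp (2 * Real.pi * x * I)

theorem ee_add (x y : ℝ) : ee (x + y) = ee x * ee y := by
  simp only [ee]
  rw [← Complex.exp_add]
  congr 1
  push_cast
  ring

theorem ee_norm (x : ℝ) : ‖ee x‖ = 1 := by
  simp only [ee]
  rw [Complex.norm_exp]
  simp

theorem ee_int (n : ℤ) : ee (n : ℝ) = 1 := by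
  simp only [ee]
  have h := Complex.exp_int_mul_two_pi_mul_I n
  rw [← h]
  congr 1
  push_cast
  ring

theorem ee_zero : ee 0 = 1 := by
  have := ee_int 0
  simpa using this

theorem ee_neg (x : ℝ) : ee (-x) = starRingEnd ℂ (ee x) := by
  simp only [ee]
  rw [← Complex.exp_conj]
  congr 1
  simp only [map_mul, Complex.conj_ofReal, Complex.conj_I, map_ofNat]
  push_cast
  ring

theorem ee_sub (x y : ℝ) : ee (x - y) = ee x * starRingEnd ℂ (ee y) := by
  rw [sub_eq_add_neg, ee_add, ee_neg]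

theorem ee_norm_sub (x y : ℝ) : ‖ee x - ee y‖ ≤ 2 * Real.pi * |x - y| := by
  have h1 : ee x - ee y = ee y * (ee (x - y) - 1) := by
    rw [mul_sub, ← ee_add, mul_one]
    congr 2
    ring
  rw [h1, norm_mul, ee_norm, one_mul]
  have h2 := Real.norm_exp_I_mul_ofReal_sub_one_le (x := 2 * Real.pi * (x - y))
  have h3 : ee (x - y) = cexp (I * ((2 * Real.pi * (x - y) : ℝ) : ℂ)) := by
    simp only [ee]
    congr 1
    push_cast
    ring
  rw [h3]
  refine h2.trans ?_
  rw [Real.norm_eq_abs, abs_mul, abs_of_pos (by positivity : (0 : ℝ) < 2 * Real.pi)]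

theorem kl_lower {x δ : ℝ} (h : ∀ l : ℤ, δ ≤ |x - l|) : 4 * δ ≤ ‖1 - ee x‖ := by
  set y : ℝ := x - round x with hy
  have hy1 : |y| ≤ 1 / 2 := abs_sub_round x
  have hy2 : δ ≤ |y| := h (round x)
  have h1 : ee x = ee y := by
    have : x = y + ((round x : ℤ) : ℝ) := by rw [hy]; ring
    rw [this, ee_add, ee_int, mul_one]
  have h3 : ‖1 - ee y‖ = 2 * |Real.sin (Real.pi * y)| := by
    have h4 : ee y = cexp (I * ((2 * Real.pi * y : ℝ) : ℂ)) := by
      simp only [ee]
      congr 1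
      push_cast
      ring
    rw [h4, norm_sub_rev, Complex.norm_exp_I_mul_ofReal_sub_one]
    rw [norm_mul, Real.norm_eq_abs, Real.norm_eq_abs, abs_of_pos (by norm_num : (0 : ℝ) < 2)]
    congr 3
    ring
  rw [h1, h3]
  have h5 : |Real.pi * y| ≤ Real.pi / 2 := by
    rw [abs_mul, abs_of_pos Real.pi_pos]
    have := mul_le_mul_of_nonneg_left hy1 Real.pi_pos.le
    linarith
  have h6 := Real.mul_abs_le_abs_sin h5
  rw [abs_mul, abs_of_pos Real.pi_pos] at h6
  have h7 : 2 / Real.pi * (Real.pi * |y|) = 2 * |y| := by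
    field_simp
  rw [h7] at h6
  linarith

/-- Kusmin–Landau with variation (helper95). -/
theorem kl_var {F : ℕ → ℝ} {N : ℕ} {δ : ℝ} (hδ : 0 < δ) (hδ2 : δ ≤ 1 / 2)
    (h : ∀ j < N, ∀ l : ℤ, δ ≤ |F (j + 1) - F j - l|) :
    ‖∑ j ∈ Finset.range (N + 1), ee (F j)‖ ≤
      1 / δ + 1 / δ ^ 2 * ∑ j ∈ Finset.range (N - 1), |F (j + 2) - 2 * F (j + 1) + F j| := by
  rcases Nat.eq_zero_or_pos N with hN | hN
  · subst hN
    simp only [zero_add, Finset.range_one, Finset.sum_singleton, ee_norm]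
    have h1 : (1 : ℝ) ≤ 1 / δ := by
      rw [le_div_iff₀ hδ]
      linarith
    simpa using h1
  set c : ℕ → ℂ := fun j => (1 - ee (F (j + 1) - F j))⁻¹ with hc
  have hne : ∀ j < N, (1 : ℂ) - ee (F (j + 1) - F j) ≠ 0 := by
    intro j hj h0
    have := kl_lower (h j hj)
    rw [h0, norm_zero] at this
    linarith
  have hcn : ∀ j < N, ‖c j‖ ≤ 1 / (4 * δ) := by
    intro j hj
    have h1 := kl_lower (h j hj)
    rw [hc]
    simp only
    rw [norm_inv, ← one_div]
    exact one_div_le_one_div_of_le (by positivity) h1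
  have hcu : ∀ j < N, ee (F j) = c j * (ee (F j) - ee (F (j + 1))) := by
    intro j hj
    have h1 : ee (F (j + 1)) = ee (F j) * ee (F (j + 1) - F j) := by
      rw [← ee_add]
      congr 1
      ring
    rw [h1, hc]
    simp only
    rw [← mul_one_sub, mul_comm, mul_assoc, mul_inv_cancel₀ (hne j hj), mul_one]
  have hcd : ∀ j, j + 1 < N → ‖c (j + 1) - c j‖ ≤
      1 / δ ^ 2 * |F (j + 2) - 2 * F (j + 1) + F j| := by
    intro j hj
    have hj' : j < N := (Nat.lt_succ_self j).trans hj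
    have h1 : c (j + 1) - c j = c (j + 1) * c j *
        (ee (F (j + 2) - F (j + 1)) - ee (F (j + 1) - F j)) := by
      have e1 := hne j hj'
      have e2 := hne (j + 1) hj
      rw [hc]
      simp only
      rw [show j + 1 + 1 = j + 2 from rfl] at e2 ⊢
      field_simp
      ring
    rw [h1, norm_mul, norm_mul]
    have h2 := ee_norm_sub (F (j + 2) - F (j + 1)) (F (j + 1) - F j)
    have h3 : F (j + 2) - F (j + 1) - (F (j + 1) - F j) = F (j + 2) - 2 * F (j + 1) + F j := by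
      ring
    rw [h3] at h2
    have h4 : ‖c (j + 1)‖ * ‖c j‖ ≤ 1 / (4 * δ) * (1 / (4 * δ)) :=
      mul_le_mul (hcn _ hj) (hcn _ hj') (norm_nonneg _) (by positivity)
    have h5 : ‖c (j + 1)‖ * ‖c j‖ *
        ‖ee (F (j + 2) - F (j + 1)) - ee (F (j + 1) - F j)‖ ≤
        1 / (4 * δ) * (1 / (4 * δ)) * (2 * Real.pi * |F (j + 2) - 2 * F (j + 1) + F j|) :=
      mul_le_mul h4 h2 (norm_nonneg _) (by positivity)
    refine h5.trans ?_
    have h6 : 1 / (4 * δ) * (1 / (4 * δ)) * (2 * Real.pi * |F (j + 2) - 2 * F (j + 1) + F j|) =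
        Real.pi / 8 * (1 / δ ^ 2 * |F (j + 2) - 2 * F (j + 1) + F j|) := by
      field_simp
      ring
    rw [h6]
    have h7 : Real.pi / 8 ≤ 1 := by
      have := Real.pi_le_four
      linarith
    have h8 : 0 ≤ 1 / δ ^ 2 * |F (j + 2) - 2 * F (j + 1) + F j| := by positivity
    nlinarith
  -- Abel summation
  have key : ∀ n, n + 1 ≤ N → ∑ j ∈ Finset.range (n + 2), ee (F j) =
      ee (F 0) * c 0 + ee (F (n + 1)) * (1 - c n) +
        ∑ j ∈ Finset.range n, ee (F (j + 1)) * (c (j + 1) - c j) := by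
    intro n
    induction n with
    | zero =>
      intro h1
      rw [Finset.sum_range_succ, Finset.sum_range_one, Finset.range_zero, Finset.sum_empty]
      have := hcu 0 h1
      simp only [zero_add] at this ⊢
      linear_combination this
    | succ n ih =>
      intro h1
      rw [Finset.sum_range_succ, ih (by omega), Finset.sum_range_succ _ n]
      have := hcu (n + 1) (by omega)
      rw [show n + 1 + 1 = n + 2 from rfl] at this ⊢
      linear_combination this
  obtain ⟨n, rfl⟩ : ∃ n, N = n + 1 := ⟨N - 1, by omega⟩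
  rw [show n + 1 + 1 = n + 2 from rfl, key n le_rfl, Nat.add_sub_cancel]
  have h1 : ‖ee (F 0) * c 0‖ ≤ 1 / (4 * δ) := by
    rw [norm_mul, ee_norm, one_mul]
    exact hcn 0 (Nat.succ_pos n)
  have h2 : ‖ee (F (n + 1)) * (1 - c n)‖ ≤ 1 + 1 / (4 * δ) := by
    rw [norm_mul, ee_norm, one_mul]
    refine (norm_sub_le _ _).trans ?_
    rw [norm_one]
    have := hcn n (Nat.lt_succ_self n)
    linarith
  have h3 : ‖∑ j ∈ Finset.range n, ee (F (j + 1)) * (c (j + 1) - c j)‖ ≤
      1 / δ ^ 2 * ∑ j ∈ Finset.range n, |F (j + 2) - 2 * F (j + 1) + F j| := by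
    rw [Finset.mul_sum]
    refine norm_sum_le_of_le _ fun j hj => ?_
    rw [Finset.mem_range] at hj
    rw [norm_mul, ee_norm, one_mul]
    exact hcd j (by omega)
  have h4 : 1 / (4 * δ) + (1 + 1 / (4 * δ)) ≤ 1 / δ := by
    have e1 : 1 / (4 * δ) = 1 / δ / 4 := by
      field_simp
    have e2 : 2 ≤ 1 / δ := by
      rw [le_div_iff₀ hδ]
      linarith
    rw [e1]
    linarith
  calc _ ≤ ‖ee (F 0) * c 0 + ee (F (n + 1)) * (1 - c n)‖ +
        ‖∑ j ∈ Finset.range n, ee (F (j + 1)) * (c (j + 1) - c j)‖ := norm_add_le _ _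
    _ ≤ (‖ee (F 0) * c 0‖ + ‖ee (F (n + 1)) * (1 - c n)‖) +
        ‖∑ j ∈ Finset.range n, ee (F (j + 1)) * (c (j + 1) - c j)‖ := by
        gcongr
        exact norm_add_le _ _
    _ ≤ _ := by linarith

/-- van der Corput's inequality (helper14). -/
theorem vc_one {G : Type*} [AddCommGroup G] (f : G → ℂ) (hfin : (Function.support f).Finite)
    (H B : Finset G) (hB : ∀ n, ∀ h ∈ H, f (n + h) ≠ 0 → n ∈ B) (b : ℝ) (hb : (B.card : ℝ) ≤ b) :
    (H.card : ℝ) ^ 2 * ‖∑' n, f n‖ ^ 2 ≤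
      b * (∑ h ∈ H, ∑ h' ∈ H, ∑' n, f (n + (h - h')) * starRingEnd ℂ (f n)).re := by
  classical
  have hsum : ∀ h : G, Summable (fun n => f (n + h)) := by
    intro h
    refine summable_of_hasFiniteSupport ?_
    refine (hfin.image (fun n => n - h)).subset ?_
    intro n hn
    exact ⟨n + h, hn, by simp⟩
  set F : G → ℂ := fun n => ∑ h ∈ H, f (n + h) with hF
  have hFB : ∀ n, n ∉ B → F n = 0 := by
    intro n hn
    refine Finset.sum_eq_zero fun h hh => ?_
    by_contra hne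
    exact hn (hB n h hh hne)
  have h1 : (H.card : ℂ) * ∑' n, f n = ∑ n ∈ B, F n := by
    have e1 : ∀ h ∈ H, ∑' n, f (n + h) = ∑' n, f n := fun h _ =>
      (Equiv.addRight h).tsum_eq f
    have e2 : ∑' n, F n = ∑ h ∈ H, ∑' n, f (n + h) :=
      Summable.tsum_finsetSum (fun h _ => hsum h)
    have e3 : ∑' n, F n = ∑ n ∈ B, F n := tsum_eq_sum fun n hn => hFB n hn
    rw [← e3, e2, Finset.sum_congr rfl e1, Finset.sum_const, nsmul_eq_mul]
  have h2 : ∑ n ∈ B, ‖F n‖ ^ 2 =
      (∑ h ∈ H, ∑ h' ∈ H, ∑' n, f (n + (h - h')) * starRingEnd ℂ (f n)).re := by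
    have e3 : ∀ h ∈ H, ∀ h' ∈ H, ∑' n, f (n + (h - h')) * starRingEnd ℂ (f n) =
        ∑ n ∈ B, f (n + h) * starRingEnd ℂ (f (n + h')) := by
      intro h hh h' _
      have e30 : ∑' n, f (n + h) * starRingEnd ℂ (f (n + h')) =
          ∑ n ∈ B, f (n + h) * starRingEnd ℂ (f (n + h')) := by
        refine tsum_eq_sum fun n hn => ?_
        have : f (n + h) = 0 := by
          by_contra hne
          exact hn (hB n h hh hne)
        rw [this, zero_mul]
      rw [← e30, ← (Equiv.addRight h').tsum_eq (fun n => f (n + (h - h')) * starRingEnd ℂ (f n))]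
      refine tsum_congr fun n => ?_
      have e31 : n + h' + (h - h') = n + h := by abel
      simp only [Equiv.coe_addRight, e31]
    have e4 : ∑ h ∈ H, ∑ h' ∈ H, ∑' n, f (n + (h - h')) * starRingEnd ℂ (f n) =
        ∑ n ∈ B, F n * starRingEnd ℂ (F n) := by
      rw [Finset.sum_congr rfl fun h hh => Finset.sum_congr rfl fun h' hh' => e3 h hh h' hh']
      have e5 : ∀ n ∈ B, F n * starRingEnd ℂ (F n) =
          ∑ h ∈ H, ∑ h' ∈ H, f (n + h) * starRingEnd ℂ (f (n + h')) := by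
        intro n _
        simp only [hF, map_sum]
        rw [Finset.sum_mul_sum]
      rw [Finset.sum_congr rfl e5, Finset.sum_comm]
      conv_rhs => rw [Finset.sum_comm]
      rw [Finset.sum_comm]
      refine Finset.sum_congr rfl fun h _ => ?_
      rw [Finset.sum_comm]
    rw [e4, Complex.re_sum]
    refine Finset.sum_congr rfl fun n _ => ?_
    rw [Complex.mul_conj, Complex.ofReal_re, Complex.normSq_eq_norm_sq]
  have h3 : ((H.card : ℝ) * ‖∑' n, f n‖) ^ 2 ≤ B.card * ∑ n ∈ B, ‖F n‖ ^ 2 := by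
    have e6 : (H.card : ℝ) * ‖∑' n, f n‖ = ‖∑ n ∈ B, F n‖ := by
      rw [← h1, norm_mul, Complex.norm_natCast]
    rw [e6]
    calc ‖∑ n ∈ B, F n‖ ^ 2 ≤ (∑ n ∈ B, ‖F n‖) ^ 2 := by
          gcongr
          exact norm_sum_le _ _
      _ ≤ B.card * ∑ n ∈ B, ‖F n‖ ^ 2 := sq_sum_le_card_mul_sum_sq
  rw [← h2]
  calc (H.card : ℝ) ^ 2 * ‖∑' n, f n‖ ^ 2 = ((H.card : ℝ) * ‖∑' n, f n‖) ^ 2 := by ring
    _ ≤ B.card * ∑ n ∈ B, ‖F n‖ ^ 2 := h3
    _ ≤ b * ∑ n ∈ B, ‖F n‖ ^ 2 := by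
        refine mul_le_mul_of_nonneg_right hb (Finset.sum_nonneg fun n _ => by positivity)

end

end Pool.Agent.T2.EXL
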