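import Pool.Agent.Lib_helper39.T2X.EXL1

/-! copy of part of the block EXP (helper44) of MonicQuadraticsLog -/

/-!
# EXP, file 2: repeated Weyl differencing
-/

namespace Pool.Agent.T2.EXL

section

open Complex

/-- the sum of `e(φ n)` over `a ≤ n < b` -/
noncomputable def S (φ : ℤ → ℝ) (a b : ℤ) : ℂ := ∑ n ∈ Finset.Ico a b, ee (φ n)

/-- the difference -/
def dd (h : ℕ) (φ : ℤ → ℝ) : ℤ → ℝ := fun n => φ (n + h) - φ n

/-- iterated differences -/
def dl : List ℕ → (ℤ → ℝ) → (ℤ → ℝ)
  | [], φ => φ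
  | h :: hs, φ => dl hs (dd h φ)

theorem dl_append (hs : List ℕ) (h : ℕ) (φ : ℤ → ℝ) : dl (hs ++ [h]) φ = dd h (dl hs φ) := by
  induction hs generalizing φ with
  | nil => rfl
  | cons k hs ih => simp only [List.cons_append, dl]; exact ih _

theorem S_norm_le (φ : ℤ → ℝ) (a b : ℤ) : ‖S φ a b‖ ≤ (b - a).toNat := by
  unfold S
  refine (norm_sum_le _ _).trans ?_
  simp [ee_norm]

theorem vdc (φ : ℤ → ℝ) (a b : ℤ) (H : ℕ) (hH : 1 ≤ H) (L : ℝ) (hL : ((b - a : ℤ) : ℝ) ≤ L)
    (hHL : (H : ℝ) ≤ L) :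
    ‖S φ a b‖ ^ 2 ≤ 2 * L / H * (L + 2 * ∑ h ∈ Finset.Ico 1 H, ‖S (dd h φ) a (b - h)‖) := by
  classical
  set f : ℤ → ℂ := fun n => if n ∈ Finset.Ico a b then ee (φ n) else 0 with hf
  have hfs : ∑' n, f n = S φ a b := by
    rw [tsum_eq_sum (s := Finset.Ico a b)]
    · unfold S
      refine Finset.sum_congr rfl fun n hn => ?_
      simp only [hf, if_pos hn]
    · intro n hn
      simp only [hf, if_neg hn]
  have hfin : (Function.support f).Finite := by
    refine (Finset.Ico a b).finite_toSet.subset ?_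
    intro n hn
    by_contra h
    exact hn (by simp only [hf, if_neg (show n ∉ Finset.Ico a b from h)])
  have hpos : ∀ h : ℕ, ∑' n, f (n + h) * starRingEnd ℂ (f n) = S (dd h φ) a (b - h) := by
    intro h
    rw [tsum_eq_sum (s := Finset.Ico a (b - h))]
    · unfold S
      refine Finset.sum_congr rfl fun n hn => ?_
      rw [Finset.mem_Ico] at hn
      have h1 : n ∈ Finset.Ico a b := Finset.mem_Ico.2 ⟨hn.1, by omega⟩
      have h2 : n + h ∈ Finset.Ico a b := Finset.mem_Ico.2 ⟨by omega, by omega⟩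
      simp only [hf, if_pos h1, if_pos h2, dd, ee_sub]
    · intro n hn
      simp only [hf]
      by_cases h1 : n ∈ Finset.Ico a b
      · have h2 : n + h ∉ Finset.Ico a b := by
          intro h3
          rw [Finset.mem_Ico] at h1 h3 hn
          omega
        rw [if_neg h2, zero_mul]
      · rw [if_neg h1, map_zero, mul_zero]
  have hneg : ∀ h : ℕ, ‖∑' n, f (n + (-(h : ℤ))) * starRingEnd ℂ (f n)‖ =
      ‖S (dd h φ) a (b - h)‖ := by
    intro h
    rw [← hpos h, ← (Equiv.addRight (h : ℤ)).tsum_eq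
      (fun n => f (n + (-(h : ℤ))) * starRingEnd ℂ (f n))]
    have : ∀ n : ℤ, f ((Equiv.addRight (h : ℤ)) n + (-(h : ℤ))) *
        starRingEnd ℂ (f ((Equiv.addRight (h : ℤ)) n)) =
        starRingEnd ℂ (f (n + h) * starRingEnd ℂ (f n)) := by
      intro n
      rw [map_mul, Complex.conj_conj, mul_comm]
      simp
    rw [tsum_congr this, ← Complex.conj_tsum, RCLike.norm_conj]
  set T : ℕ → ℝ := fun h => ‖S (dd h φ) a (b - h)‖ with hT
  have hall : ∀ d : ℤ, ‖∑' n, f (n + d) * starRingEnd ℂ (f n)‖ = T d.natAbs := by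
    intro d
    rcases Int.natAbs_eq d with h | h
    · conv_lhs => rw [h]
      rw [hpos]
    · conv_lhs => rw [h]
      rw [hneg]
  have hL0 : 0 < L := lt_of_lt_of_le (by exact_mod_cast hH) hHL
  have hT0 : T 0 ≤ L := by
    refine (S_norm_le _ _ _).trans ?_
    rcases le_or_gt a b with h | h
    · have : (((b - (0 : ℕ) - a).toNat : ℤ) : ℝ) = ((b - a : ℤ) : ℝ) := by
        congr 1
        omega
      have h2 : (((b - (0 : ℕ) - a).toNat : ℕ) : ℝ) = (((b - (0 : ℕ) - a).toNat : ℤ) : ℝ) := by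
        push_cast; rfl
      rw [h2, this]
      exact hL
    · have : (b - (0 : ℕ) - a).toNat = 0 := by omega
      rw [this]
      simpa using hL0.le
  set Hs : Finset ℤ := (Finset.range H).image (fun n : ℕ => (n : ℤ)) with hHs
  have hHc : (Hs.card : ℝ) = H := by
    rw [hHs, Finset.card_image_of_injective _ Nat.cast_injective, Finset.card_range]
  have hsumr : ∀ g : ℤ → ℂ, ∑ h ∈ Hs, g h = ∑ h ∈ Finset.range H, g h := by
    intro g
    rw [hHs, Finset.sum_image (fun _ _ _ _ h => Nat.cast_injective h)]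
  rcases le_or_gt b a with hba | hba
  · have : S φ a b = 0 := by
      unfold S
      rw [Finset.Ico_eq_empty (by omega), Finset.sum_empty]
    rw [this, norm_zero, zero_pow two_ne_zero]
    positivity
  have hmain := vc_one f hfin Hs (Finset.Ico (a - H + 1) b) (by
    intro n h hh hne
    rw [hHs, Finset.mem_image] at hh
    obtain ⟨j, hj, rfl⟩ := hh
    rw [Finset.mem_range] at hj
    have h1 : n + j ∈ Finset.Ico a b := by
      by_contra h2
      exact hne (by simp only [hf, if_neg h2])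
    rw [Finset.mem_Ico] at h1 ⊢
    omega) (2 * L) (by
      rw [Int.card_Ico]
      have : (((b - (a - H + 1)).toNat : ℕ) : ℝ) = (((b - (a - H + 1)).toNat : ℤ) : ℝ) := by
        push_cast; rfl
      rw [this]
      have h2 : ((b - (a - H + 1)).toNat : ℤ) ≤ (b - a) + H := by omega
      have h3 : ((((b - (a - H + 1)).toNat : ℤ)) : ℝ) ≤ (((b - a) + H : ℤ) : ℝ) := by
        exact_mod_cast h2
      push_cast at h3 hL
      refine h3.trans ?_
      linarith)
  rw [hfs, hHc] at hmain
  have hre : (∑ h ∈ Hs, ∑ h' ∈ Hs, ∑' n, f (n + (h - h')) * starRingEnd ℂ (f n)).re ≤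
      H * (L + 2 * ∑ h ∈ Finset.Ico 1 H, T h) := by
    refine (Complex.re_le_norm _).trans ?_
    rw [hsumr]
    refine (norm_sum_le _ _).trans ?_
    have : ∀ i ∈ Finset.range H, ‖∑ h' ∈ Hs, ∑' n, f (n + ((i : ℤ) - h')) * starRingEnd ℂ (f n)‖ ≤
        L + 2 * ∑ h ∈ Finset.Ico 1 H, T h := by
      intro i hi
      rw [Finset.mem_range] at hi
      rw [hsumr]
      refine (norm_sum_le _ _).trans ?_
      simp only [hall]
      have e1 : ∑ j ∈ Finset.range H, T ((i : ℤ) - j).natAbs =
          ∑ j ∈ Finset.range i, T (i - j) + T 0 + ∑ j ∈ Finset.Ico (i + 1) H, T (j - i) := by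
        have e2 : Finset.range H = Finset.range (i + 1) ∪ Finset.Ico (i + 1) H := by
          ext j; simp only [Finset.mem_range, Finset.mem_union, Finset.mem_Ico]; omega
        rw [e2, Finset.sum_union (by
          rw [Finset.disjoint_left]; intro j; simp only [Finset.mem_range, Finset.mem_Ico]; omega),
          Finset.sum_range_succ]
        congr 1
        · congr 1
          · refine Finset.sum_congr rfl fun j hj => ?_
            rw [Finset.mem_range] at hj
            congr 1
            omega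
          · simp
        · refine Finset.sum_congr rfl fun j hj => ?_
          rw [Finset.mem_Ico] at hj
          congr 1
          omega
      rw [e1]
      have hTn : ∀ h, 0 ≤ T h := fun h => norm_nonneg _
      have e3 : ∑ j ∈ Finset.range i, T (i - j) ≤ ∑ h ∈ Finset.Ico 1 H, T h := by
        have : ∑ j ∈ Finset.range i, T (i - j) = ∑ h ∈ Finset.Ico 1 (i + 1), T h := by
          rw [← Finset.sum_image (f := T) (s := Finset.range i) (g := fun j => i - j)]
          · congr 1
            ext h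
            simp only [Finset.mem_image, Finset.mem_range, Finset.mem_Ico]
            constructor
            · rintro ⟨j, hj, rfl⟩; omega
            · rintro ⟨h1, h2⟩; exact ⟨i - h, by omega, by omega⟩
          · intro x hx y hy hxy
            simp only [Finset.coe_range, Set.mem_Iio] at hx hy
            simp only at hxy
            omega
        rw [this]
        exact Finset.sum_le_sum_of_subset_of_nonneg (by
          intro h; simp only [Finset.mem_Ico]; omega) fun _ _ _ => hTn _
      have e4 : ∑ j ∈ Finset.Ico (i + 1) H, T (j - i) ≤ ∑ h ∈ Finset.Ico 1 H, T h := by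
        have : ∑ j ∈ Finset.Ico (i + 1) H, T (j - i) = ∑ h ∈ Finset.Ico 1 (H - i), T h := by
          rw [← Finset.sum_image (f := T) (s := Finset.Ico (i + 1) H) (g := fun j => j - i)]
          · congr 1
            ext h
            simp only [Finset.mem_image, Finset.mem_Ico]
            constructor
            · rintro ⟨j, hj, rfl⟩; omega
            · rintro ⟨h1, h2⟩; exact ⟨h + i, by omega, by omega⟩
          · intro x hx y hy hxy
            simp only [Finset.coe_Ico, Set.mem_Ico] at hx hy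
            simp only at hxy
            omega
        rw [this]
        exact Finset.sum_le_sum_of_subset_of_nonneg (by
          intro h; simp only [Finset.mem_Ico]; omega) fun _ _ _ => hTn _
      linarith
    refine (Finset.sum_le_sum this).trans ?_
    rw [Finset.sum_const, Finset.card_range, nsmul_eq_mul]
  have hH0 : (0 : ℝ) < H := by exact_mod_cast hH
  have h5 : (H : ℝ) ^ 2 * ‖S φ a b‖ ^ 2 ≤ 2 * L * (H * (L + 2 * ∑ h ∈ Finset.Ico 1 H, T h)) :=
    hmain.trans (mul_le_mul_of_nonneg_left hre (by positivity))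
  have h6 : ‖S φ a b‖ ^ 2 ≤ 2 * L * (H * (L + 2 * ∑ h ∈ Finset.Ico 1 H, T h)) / (H : ℝ) ^ 2 := by
    rw [le_div_iff₀ (by positivity)]
    linarith
  refine h6.trans (le_of_eq ?_)
  field_simp

/-- repeated differencing: constants -/
noncomputable def Cw : ℕ → ℝ
  | 0 => 1
  | (r + 1) => 2 ^ (2 * 2 ^ r) * (1 + 2 ^ (2 ^ r) * Cw r)

theorem Cw_pos (r : ℕ) : 0 < Cw r := by
  induction r with
  | zero => simp [Cw]
  | succ r ih => simp only [Cw]; positivity

theorem weyl (r : ℕ) : ∀ (φ : ℤ → ℝ) (a b : ℤ) (H : ℕ), 1 ≤ H → ∀ (L ℓ B : ℝ),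
    ((b - a : ℤ) : ℝ) ≤ L → (H : ℝ) ≤ L → 0 ≤ ℓ → ∑ h ∈ Finset.Ico 1 H, (1 / (h : ℝ)) ≤ ℓ →
    0 ≤ B →
    (∀ hs : List ℕ, hs.length = r → (∀ h ∈ hs, 1 ≤ h ∧ h < H) →
      ‖S (dl hs φ) a (b - (hs.sum : ℕ))‖ ≤ B / (hs.prod : ℕ)) →
    ‖S φ a b‖ ^ (2 ^ r) ≤ Cw r * L ^ (2 ^ r) * (1 / H + B / L * (ℓ / H) ^ r) := by
  induction r with
  | zero =>
    intro φ a b H hH L ℓ B hL hHL hℓ hs hB hyp
    have hH0 : (0 : ℝ) < H := by exact_mod_cast hH
    have hL0 : 0 < L := lt_of_lt_of_le hH0 hHL
    have h1 := hyp [] rfl (by simp)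
    simp only [dl, List.sum_nil, Nat.cast_zero, sub_zero, List.prod_nil, Nat.cast_one,
      div_one] at h1
    simp only [pow_zero, pow_one, Cw, mul_one, one_mul]
    have h2 : L * (1 / H + B / L) = L / H + B := by field_simp
    rw [h2]
    have : 0 ≤ L / H := by positivity
    linarith
  | succ r ih =>
    intro φ a b H hH L ℓ B hL hHL hℓ hs hB hyp
    have hH0 : (0 : ℝ) < H := by exact_mod_cast hH
    have hL0 : 0 < L := lt_of_lt_of_le hH0 hHL
    set p : ℕ := 2 ^ r with hp
    have hp1 : 1 ≤ p := Nat.one_le_two_pow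
    set T : ℕ → ℝ := fun h => ‖S (dd h φ) a (b - h)‖ with hT
    have hTn : ∀ h, 0 ≤ T h := fun h => norm_nonneg _
    have hv := vdc φ a b H hH L hL hHL
    have hTh : ∀ h ∈ Finset.Ico 1 H, T h ^ p ≤
        Cw r * L ^ p * (1 / H + B / L * (ℓ / H) ^ r * (1 / h)) := by
      intro h hh
      rw [Finset.mem_Ico] at hh
      have hh0 : (0 : ℝ) < h := by exact_mod_cast hh.1
      have := ih (dd h φ) a (b - h) H hH L ℓ (B / h) (by
        push_cast at hL ⊢
        linarith) hHL hℓ hs (by positivity) (by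
        intro ks hks hks2
        have := hyp (h :: ks) (by simp [hks]) (by
          intro x hx
          rcases List.mem_cons.1 hx with rfl | hx
          · exact hh
          · exact hks2 x hx)
        simp only [dl, List.sum_cons, List.prod_cons] at this
        rw [show b - (h : ℤ) - ((ks.sum : ℕ) : ℤ) = b - ((h + ks.sum : ℕ) : ℤ) by push_cast; ring]
        refine this.trans (le_of_eq ?_)
        push_cast
        rw [div_div])
      refine this.trans (le_of_eq ?_)
      congr 2
      field_simp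
    set s0 : ℝ := ∑ h ∈ Finset.Ico 1 H, T h with hs0
    have hs00 : 0 ≤ s0 := Finset.sum_nonneg fun _ _ => hTn _
    set E : ℝ := B / L * (ℓ / H) ^ r with hE
    have hE0 : 0 ≤ E := by positivity
    have hsump : s0 ^ p ≤ H ^ (p - 1) * (Cw r * L ^ p * (1 + E * ℓ)) := by
      have h1 : s0 ^ p ≤ ((Finset.Ico 1 H).card : ℝ) ^ (p - 1) * ∑ h ∈ Finset.Ico 1 H, T h ^ p := by
        obtain ⟨q, hq⟩ : ∃ q, p = q + 1 := ⟨p - 1, by omega⟩
        rw [hq, Nat.add_sub_cancel]
        exact pow_sum_le_card_mul_sum_pow (fun i _ => hTn i) q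
      have h2 : ((Finset.Ico 1 H).card : ℝ) ≤ H := by
        rw [Nat.card_Ico]
        exact_mod_cast Nat.sub_le _ _
      have h3 : ∑ h ∈ Finset.Ico 1 H, T h ^ p ≤ Cw r * L ^ p * (1 + E * ℓ) := by
        refine (Finset.sum_le_sum hTh).trans ?_
        rw [← Finset.mul_sum]
        have hC := Cw_pos r
        refine mul_le_mul_of_nonneg_left ?_ (by positivity)
        rw [Finset.sum_add_distrib, Finset.sum_const, nsmul_eq_mul, ← Finset.mul_sum]
        have h4 : ((Finset.Ico 1 H).card : ℝ) * (1 / H) ≤ 1 := by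
          rw [mul_one_div, div_le_one hH0]
          exact h2
        have h5 : E * ∑ h ∈ Finset.Ico 1 H, (1 / (h : ℝ)) ≤ E * ℓ :=
          mul_le_mul_of_nonneg_left hs hE0
        linarith
      calc s0 ^ p ≤ ((Finset.Ico 1 H).card : ℝ) ^ (p - 1) * ∑ h ∈ Finset.Ico 1 H, T h ^ p := h1
        _ ≤ H ^ (p - 1) * (Cw r * L ^ p * (1 + E * ℓ)) := by
            have := Finset.sum_nonneg (s := Finset.Ico 1 H) (f := fun h => T h ^ p)
              fun i _ => pow_nonneg (hTn i) p
            gcongr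
    have hconv : (L + 2 * s0) ^ p ≤ 2 ^ (p - 1) * (L ^ p + (2 * s0) ^ p) :=
      add_pow_le hL0.le (by positivity) p
    have h7 : ‖S φ a b‖ ^ (2 ^ (r + 1)) ≤ (2 * L / H * (L + 2 * s0)) ^ p := by
      have : 2 ^ (r + 1) = 2 * p := by rw [hp, pow_succ, mul_comm]
      rw [this, pow_mul]
      exact pow_le_pow_left₀ (by positivity) hv p
    refine h7.trans ?_
    rw [mul_pow]
    have hC := Cw_pos r
    have hHp : (H : ℝ) ^ p = H ^ (p - 1) * H := by
      conv_lhs => rw [show p = (p - 1) + 1 by omega, pow_succ]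
    have h2p : (2 : ℝ) ^ (p - 1) ≤ 2 ^ p := pow_le_pow_right₀ (by norm_num) (Nat.sub_le _ _)
    calc (2 * L / H) ^ p * (L + 2 * s0) ^ p
        ≤ (2 * L / H) ^ p * (2 ^ (p - 1) * (L ^ p + (2 * s0) ^ p)) := by gcongr
      _ ≤ (2 * L / H) ^ p * (2 ^ p * (L ^ p + (2 * s0) ^ p)) := by gcongr
      _ = (2 * L / H) ^ p * (2 ^ p * (L ^ p + 2 ^ p * s0 ^ p)) := by rw [mul_pow 2 s0 p]
      _ ≤ (2 * L / H) ^ p * (2 ^ p * (L ^ p + 2 ^ p *
            (H ^ (p - 1) * (Cw r * L ^ p * (1 + E * ℓ))))) := by gcongr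
      _ = 2 ^ (2 * p) * L ^ p * L ^ p *
            (1 / H ^ p + 2 ^ p * Cw r * (1 / H + E * ℓ / H)) := by
          rw [div_pow, mul_pow, hHp, two_mul, pow_add]
          have : (H : ℝ) ^ (p - 1) ≠ 0 := by positivity
          field_simp
      _ ≤ 2 ^ (2 * p) * L ^ p * L ^ p *
            ((1 + 2 ^ p * Cw r) * (1 / H + E * ℓ / H)) := by
          have h8 : 1 / (H : ℝ) ^ p ≤ 1 / H := by
            apply one_div_le_one_div_of_le hH0
            calc (H : ℝ) = H ^ 1 := (pow_one _).symm
              _ ≤ H ^ p := pow_le_pow_right₀ (by exact_mod_cast hH) hp1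
          have h9 : 0 ≤ E * ℓ / H := by positivity
          refine mul_le_mul_of_nonneg_left ?_ (by positivity)
          have : (1 + 2 ^ p * Cw r) * (1 / H + E * ℓ / H) =
            (1 / H + E * ℓ / H) + 2 ^ p * Cw r * (1 / H + E * ℓ / H) := by ring
          rw [this]
          linarith
      _ = Cw (r + 1) * L ^ 2 ^ (r + 1) * (1 / H + B / L * (ℓ / H) ^ (r + 1)) := by
          simp only [Cw, ← hp]
          have : (2 : ℕ) ^ (r + 1) = p + p := by rw [hp, pow_succ]; ring
          rw [this, pow_add, hE, pow_succ]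
          ring

end

end Pool.Agent.T2.EXL
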